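import Pool.Agent.H91.STK.MG

/-!
# Steingrimsson's conjecture: placement, general case (GG)
-/

namespace Pool.Agent.H91.STK

open Finset Pool.Agent.H47.ST

theorem PA_split (R : ℕ) (W U : ℝ) (e : ℕ) (A : List (List ℕ)) (B : List ℕ)
    (C : List (List ℕ)) :
    PA R W U e (A ++ B :: C) = PA R W U e A * (phC R W U e 0 B 0 * PA R W U e C) := by
  unfold PA
  rw [List.map_append, List.prod_append, List.map_cons, List.prod_cons]

theorem tsum_split (A : List (List ℕ)) (B : List ℕ) (C : List (List ℕ)) :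
    Pool.Agent.H47.ST.tsum (A ++ B :: C) =
      Pool.Agent.H47.ST.tsum A + (top 0 B + Pool.Agent.H47.ST.tsum C) := by
  unfold Pool.Agent.H47.ST.tsum
  rw [List.map_append, List.sum_append, List.map_cons, List.sum_cons]

theorem pf_GG (h1 : T_TOP) (h2 : T_SC) (h3 : T_MG) : T_GG := by
  intro R W U e Ls X Y Rs hR hW hU he
  obtain ⟨-, hA2, -, hA4⟩ := h2 R W U e (top 0 X) Ls hW hU he
  obtain ⟨hB1, -, hB3, -⟩ := h2 R W U e (top 0 Y) Rs hW hU he
  have hM := h3 R W U e X Y hR hW hU he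
  have key : ∀ (a b : ℝ) (n : ℕ), 0 ≤ a → a * U ^ n ≤ b → a ≤ b := by
    intro a b n ha hab
    have h6 : 1 ≤ U ^ n := one_le_pow₀ hU
    exact (le_mul_of_one_le_right ha h6).trans hab
  have hA := key _ _ _ (PA_pos R e hW hU _).le hA2
  have hB := key _ _ _ (PA_pos R e hW hU _).le hB1
  have hC := key _ _ _ (phC_pos R e hW hU _ 0 0).le hM
  have hK : 0 ≤ KK R W U := by
    unfold KK
    positivity
  refine ⟨?_, ?_⟩
  · rw [place, PA_split, PA_split]
    have p1 := (PA_pos R e hW hU (upL (1 - e) (top 0 X) Ls)).le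
    have p2 := (PA_pos R e hW hU (upR e (top 0 Y) Rs)).le
    have p3 := (phC_pos R e hW hU (ins e X Y) 0 0).le
    have p4 := (PA_pos R e hW hU Ls).le
    have p5 := (PA_pos R e hW hU Rs).le
    have p6 := (phC_pos R e hW hU (X ++ Y) 0 0).le
    calc PA R W U e (upL (1 - e) (top 0 X) Ls) *
          (phC R W U e 0 (ins e X Y) 0 * PA R W U e (upR e (top 0 Y) Rs))
        ≤ PA R W U e Ls * (KK R W U * phC R W U e 0 (X ++ Y) 0 * PA R W U e Rs) := by
          refine mul_le_mul hA (mul_le_mul hC hB p2 (mul_nonneg hK p6)) (mul_nonneg p3 p2) p4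
      _ = _ := by ring
  · rw [place, tsum_split, tsum_split]
    have hi : top 0 (X ++ Y) ≤ top 0 (ins e X Y) := by
      rw [h1.2.1, ins, h1.2.1, top_cons0 h1]
      have t1 : top 0 X ≤ top 0 (up (1 - e) 0 X.reverse).reverse := by
        rw [h1.2.2.1, ← h1.2.2.1 X]
        exact top_up_le h1 _ _
      have t2 := top_up_le h1 e Y
      omega
    omega

end Pool.Agent.H91.STK
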