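import Pool.Agent.H47.ST.Targets

/-!
# Steingrimsson's conjecture: own block, general case (MG)
-/

namespace Pool.Agent.H91.STK

open Finset Pool.Agent.H47.ST

theorem wt_pos (R : ℕ) {W U : ℝ} (e hl r hr : ℕ) (hW : 1 ≤ W) (hU : 1 ≤ U) :
    0 < wt R W U e hl r hr := by
  unfold wt
  have h1 := Real.exp_pos (((R : ℝ) + 1 - (Lh e hl r hr : ℝ)) / R)
  split_ifs <;> positivity

theorem phC_pos (R : ℕ) {W U : ℝ} (e : ℕ) (hW : 1 ≤ W) (hU : 1 ≤ U) (B : List ℕ) :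
    ∀ hl hr : ℕ, 0 < phC R W U e hl B hr := by
  induction B with
  | nil =>
    intro hl hr
    rw [phC]
    exact one_pos
  | cons r B ih =>
    intro hl hr
    rw [phC]
    exact mul_pos (wt_pos R e _ _ _ hW hU) (ih _ _)

theorem PA_pos (R : ℕ) {W U : ℝ} (e : ℕ) (hW : 1 ≤ W) (hU : 1 ≤ U) (st : List (List ℕ)) :
    0 < PA R W U e st := by
  unfold PA
  refine List.prod_pos ?_
  intro a ha
  obtain ⟨B, -, rfl⟩ := List.mem_map.mp ha
  exact phC_pos R e hW hU B 0 0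

theorem wt_le (R : ℕ) {W U : ℝ} (e hl r hr : ℕ) (hR : 1 ≤ R) (hW : 1 ≤ W) (hU : 1 ≤ U) :
    wt R W U e hl r hr ≤ Real.exp (((R : ℝ) + 1) / R) * W * U := by
  unfold wt
  have hR0 : (0 : ℝ) < R := by exact_mod_cast hR
  have h1 : Real.exp (((R : ℝ) + 1 - (Lh e hl r hr : ℝ)) / R) ≤ Real.exp (((R : ℝ) + 1) / R) := by
    rw [Real.exp_le_exp]
    refine div_le_div_of_nonneg_right ?_ hR0.le
    have : (0 : ℝ) ≤ (Lh e hl r hr : ℝ) := Nat.cast_nonneg _
    linarith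
  have h0 := Real.exp_pos (((R : ℝ) + 1) / R)
  refine mul_le_mul (mul_le_mul h1 ?_ ?_ h0.le) ?_ ?_ (by positivity)
  · split_ifs
    · exact le_rfl
    · exact hW
  · split_ifs <;> linarith
  · split_ifs
    · exact le_rfl
    · exact hU
  · split_ifs <;> linarith

theorem top_up_le (h1 : T_TOP) (e : ℕ) (B : List ℕ) : top 0 B ≤ top 0 (up e 0 B) := by
  rw [h1.2.2.2 e 0 B]
  split_ifs
  · exact Nat.le_succ _
  · exact le_rfl

theorem top_cons0 (h1 : T_TOP) (B : List ℕ) : top 0 (0 :: B) = max 1 (top 0 B) := by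
  rw [top, h1.1]
  rfl

theorem pf_MG (h1 : T_TOP) (h2 : T_APP) (h3 : T_MIR) (h4 : T_YS) : T_MG := by
  intro R W U e X Y hR hW hU he
  have he' : 1 - e < 2 := by omega
  obtain ⟨X2, hX2⟩ : ∃ X2 : List ℕ, X2 = (up (1 - e) 0 X.reverse).reverse := ⟨_, rfl⟩
  obtain ⟨Y2, hY2⟩ : ∃ Y2 : List ℕ, Y2 = up e 0 Y := ⟨_, rfl⟩
  have htX : top 0 X ≤ top 0 X2 := by
    rw [hX2, h1.2.2.1, ← h1.2.2.1 X]
    exact top_up_le h1 _ _
  have htY : top 0 Y ≤ top 0 Y2 := by
    rw [hY2]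
    exact top_up_le h1 _ _
  have hX2r : X2.reverse = up (1 - e) 0 X.reverse := by rw [hX2, List.reverse_reverse]
  -- the product
  have hP : phC R W U e 0 (ins e X Y) 0 = phC R W U e 0 X2 (max 1 (top 0 Y2)) *
      (wt R W U e (top 0 X2) 0 (top 0 Y2) * phC R W U e (max (top 0 X2) 1) Y2 0) := by
    rw [ins, ← hX2, ← hY2, h2 R W U e 0 0 X2 (0 :: Y2), top_cons0 h1, phC]
    simp only [Nat.max_zero, Nat.zero_max, Nat.zero_add]
  have hQ : phC R W U e 0 (X ++ Y) 0 = phC R W U e 0 X (top 0 Y) *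
      phC R W U e (top 0 X) Y 0 := by
    rw [h2 R W U e 0 0 X Y]
    simp only [Nat.max_zero, Nat.zero_max]
  -- the left part
  have hL : phC R W U e 0 X2 (max 1 (top 0 Y2)) *
      U ^ (vis (1 - e) (top 0 Y) X.reverse).card ≤ W ^ 2 * U * phC R W U e 0 X (top 0 Y) := by
    have h5 := h4 R W U (1 - e) (top 0 Y) (max 1 (top 0 Y2)) X.reverse hW hU he' (by omega)
    rw [h3 R W U e 0 (top 0 Y) X he] at h5
    rw [← hX2r, h3 R W U e 0 (max 1 (top 0 Y2)) X2 he] at h5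
    exact h5
  -- the right part
  have hRt : phC R W U e (max (top 0 X2) 1) Y2 0 ≤ W ^ 2 * U * phC R W U e (top 0 X) Y 0 := by
    have h5 := h4 R W U e (top 0 X) (max (top 0 X2) 1) Y hW hU he (by omega)
    rw [← hY2] at h5
    have h6 : 1 ≤ U ^ (vis e (top 0 X) Y).card := one_le_pow₀ hU
    have h7 := (phC_pos R e hW hU Y2 (max (top 0 X2) 1) 0).le
    calc phC R W U e (max (top 0 X2) 1) Y2 0
        = phC R W U e (max (top 0 X2) 1) Y2 0 * 1 := (mul_one _).symm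
      _ ≤ phC R W U e (max (top 0 X2) 1) Y2 0 * U ^ (vis e (top 0 X) Y).card :=
          mul_le_mul_of_nonneg_left h6 h7
      _ ≤ _ := h5
  have hw := wt_le R e (top 0 X2) 0 (top 0 Y2) hR hW hU
  have hw0 := (wt_pos R e (top 0 X2) 0 (top 0 Y2) hW hU).le
  have hE := Real.exp_pos (((R : ℝ) + 1) / R)
  have ha := (phC_pos R e hW hU X 0 (top 0 Y)).le
  have hb := (phC_pos R e hW hU Y (top 0 X) 0).le
  have hB := (phC_pos R e hW hU Y2 (max (top 0 X2) 1) 0).le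
  rw [hP, hQ]
  calc phC R W U e 0 X2 (max 1 (top 0 Y2)) *
      (wt R W U e (top 0 X2) 0 (top 0 Y2) * phC R W U e (max (top 0 X2) 1) Y2 0) *
        U ^ (vis (1 - e) (top 0 Y) X.reverse).card
      = (phC R W U e 0 X2 (max 1 (top 0 Y2)) * U ^ (vis (1 - e) (top 0 Y) X.reverse).card) *
        (wt R W U e (top 0 X2) 0 (top 0 Y2) * phC R W U e (max (top 0 X2) 1) Y2 0) := by ring
    _ ≤ (W ^ 2 * U * phC R W U e 0 X (top 0 Y)) *
        (Real.exp (((R : ℝ) + 1) / R) * W * U * (W ^ 2 * U * phC R W U e (top 0 X) Y 0)) := by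
        refine mul_le_mul hL (mul_le_mul hw hRt hB (by positivity)) (mul_nonneg hw0 hB)
          (by positivity)
    _ = KK R W U * (phC R W U e 0 X (top 0 Y) * phC R W U e (top 0 X) Y 0) := by
        unfold KK
        ring

end Pool.Agent.H91.STK
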